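import Pool.Agent.Run7.h363.BD.Fin
set_option autoImplicit false

/-!
Beilinson's conjecture on regulators in weight `d = dim X + 1`, for `i = dim X`: on the
hypersurfaces `m ∏_k ∏_{i ≤ r_k} (x_k - b_{k,i}) = 1` of dimension `n` and multidegree
`(r_0 + 1, ..., r_n + 1)`, where `m ≠ 0` is a rational integer and the `b_{k,i}` are rational
integers, different for fixed `k`, there are `p_g = ∏_k r_k` unramified classes in Milnor
K-theory with linearly independent regulators, with finitely many exceptions up to translations of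
the coordinates, in every dimension `n ≥ 1` and for all `r_0, ..., r_n ≥ 1`. Over number fields: an
explicit criterion in terms of `|λ|`, lower bounds for the distances of the roots, and the
diameters of the sets of roots.
-/

namespace Pool.Agent.Results.MP_a09a03_nt.AllButFinitelyMany

open Pool.Agent.TH826.MK (KQ symb Unramified Torus)

open Pool.Agent.TH826.MH

open Pool.Agent.Run7.h363.BD

variable {n : ℕ}

/-- The conclusions for the hypersurface `λ ∏_k ∏_{i ≤ r_k} (x_k - a_{k,i}) = 1` of dimension `n`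
over the field `K` with the complex embedding `σ`: its coordinate ring is a domain; the hypersurface
is smooth (the gradient does not vanish at the complex points over `σ`); the `∏_k r_k` symbols
`{u_{0,i_0}, ..., u_{n,i_n}}`, `u_{k,i} = (x_k - a_{k,i}) / (x_k - a_{k,i+1})`, are unramified at all
discrete valuations of the function field; and there are `∏_k r_k` tori of dimension `n` in the
complex points (over `σ`) of the hypersurface, such that the determinant of the regulators of the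
symbols on the tori does not vanish. -/
def GenusManyClasses.{u, v} {r : Fin (n + 1) → ℕ} {K : Type u} [Field K] (σ : K →+* ℂ) (lam : K)
    (a : ∀ k, Fin (r k + 1) → K) : Prop :=
  IsDomain (CRing lam a) ∧
  (∀ x : Fin (n + 1) → ℂ, MvPolynomial.eval₂ σ x (eqn lam a) = 0 →
    ∃ k, MvPolynomial.eval₂ σ x (MvPolynomial.pderiv k (eqn lam a)) ≠ 0) ∧
  (∀ (L : Type v) [Field L] [Algebra (CRing lam a) L] [IsFractionRing (CRing lam a) L],
    ∀ i : (∀ k, Fin (r k)),
      KQ.map (n + 1) (algebraMap (CRing lam a) L) (symb (ent lam a i)) ∈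
        Unramified L (n + 1)) ∧
  ∃ Γ : (∀ k, Fin (r k)) → Torus (CRing lam a) n,
    (∀ t θ (x : K), (Γ t).e θ (fpol lam a (MvPolynomial.C x)) = σ x) ∧
    (Matrix.of fun t i : (∀ k, Fin (r k)) => (Γ t).reg (symb (ent lam a i))).det ≠ 0

/-- the constant of the criterion; it depends only on the multidegree -/
noncomputable def bound (r : Fin (n + 1) → ℕ) : ℝ :=
  1 + (∏ k, ((r k : ℝ) + 1)) * ((r 0 : ℝ) + 1) +
    ∑ k, (((r k : ℝ) + 1) * Real.log 3 + Real.log (2 * ((r k : ℝ) + 1) ^ r k))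

theorem criterion.{u, v} (hn : 1 ≤ n) {r : Fin (n + 1) → ℕ} {K : Type u} [Field K]
    [NumberField K] (σ : K →+* ℂ) (lam : K) (a : ∀ k, Fin (r k + 1) → K) (hl0 : lam ≠ 0)
    (hlam : IsIntegral ℤ lam) (ha : ∀ k i, IsIntegral ℤ (a k i)) (δ : Fin (n + 1) → ℝ)
    (hδ : ∀ k, 0 < δ k) (hsep : ∀ k i j, i ≠ j → δ k ≤ ‖σ (a k i) - σ (a k j)‖)
    (x0 y0 : ∀ k, Fin (r k + 1)) (hne : ∀ k, x0 k ≠ y0 k)
    (h : bound r ≤ Real.log ‖σ lam‖ + ∑ k, (((r k : ℝ) + 1) * Real.log (δ k) +
      max 0 (Real.log (‖σ (a k (x0 k)) - σ (a k (y0 k))‖ / (2 * δ k))) / (4 * (r k : ℝ) + 8))) :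
    GenusManyClasses.{u, v} σ lam a := by
  have hinj : ∀ k, Function.Injective (a k) := by
    intro k i j hij
    by_contra hne
    have h := hsep k i j hne
    rw [hij, sub_self, norm_zero] at h
    linarith [hδ k]
  have h' : Cst r ≤ Siz r ‖σ lam‖ δ fun k => ‖σ (a k (x0 k)) - σ (a k (y0 k))‖ := by
    unfold Cst Siz
    unfold bound at h
    exact h
  have h2 := exists_tori_fin hn hl0 hδ hsep x0 y0 hne h'
  have h1 : IsDomain (CRing lam a) := by
    obtain ⟨m, rfl⟩ : ∃ m, n = m + 1 := ⟨n - 1, by omega⟩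
    exact isDomain_CRing lam a hl0 hinj
  refine ⟨h1, fun x hx => smooth_fin hl0 hδ hsep x0 y0 hne h' x hx, ?_, h2⟩
  intro L _ _ _ i
  exact symb_mem_unramified (algebraMap (CRing lam a) L) hlam ha i

theorem rat_bounds.{v} (hn : 1 ≤ n) {r : Fin (n + 1) → ℕ} (hr : ∀ k, 1 ≤ r k) {m : ℤ}
    {b : ∀ k, Fin (r k + 1) → ℤ} (hm : m ≠ 0) (hb : ∀ k, Function.Injective (b k))
    (hb0 : ∀ k, b k 0 = 0) {σ : ℚ →+* ℂ}
    (h : ¬ GenusManyClasses.{0, v} σ (m : ℚ) fun k i => (b k i : ℚ)) :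
    Real.log |(m : ℝ)| ≤ bound r ∧
      ∀ k i, Real.log (|(b k i : ℝ)| / 2) ≤ bound r * (4 * (r k : ℝ) + 8) := by
  classical
  have hσ : ∀ z : ℤ, ‖σ (z : ℚ)‖ = |(z : ℝ)| := by
    intro z
    rw [map_intCast, Complex.norm_intCast]
  have hm1 : 0 ≤ Real.log |(m : ℝ)| := by
    apply Real.log_nonneg
    have : 1 ≤ |m| := Int.one_le_abs hm
    exact_mod_cast this
  have hC0 : 0 ≤ bound r := by
    have h1 : (0 : ℝ) ≤ (∏ k, ((r k : ℝ) + 1)) * ((r 0 : ℝ) + 1) :=
      mul_nonneg (Finset.prod_nonneg fun k _ => by positivity) (by positivity)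
    have h2 := Cst_ge r
    have h3 : 0 ≤ ∑ k, ((r k : ℝ) + 1) * Real.log 3 := Finset.sum_nonneg fun k _ => by
      have := Real.log_nonneg (by norm_num : (1 : ℝ) ≤ 3)
      positivity
    have h4 : bound r = Cst r := rfl
    linarith
  have key : ∀ (x0 : ∀ k, Fin (r k + 1)), (∀ k, x0 k ≠ 0) →
      Real.log |(m : ℝ)| + ∑ k, max 0 (Real.log (|(b k (x0 k) : ℝ)| / 2)) / (4 * (r k : ℝ) + 8) <
        bound r := by
    intro x0 hx0
    by_contra hcon
    apply h
    have hint : ∀ z : ℤ, IsIntegral ℤ (z : ℚ) := fun z => by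
      have := isIntegral_algebraMap (R := ℤ) (A := ℚ) (x := z)
      simpa using this
    refine criterion hn σ (m : ℚ) (fun k i => (b k i : ℚ)) (by exact_mod_cast hm) (hint m)
      (fun k i => hint (b k i)) (fun _ => 1) (fun _ => one_pos) (fun k i j hij => ?_) x0
      (fun _ => 0) hx0 ?_
    · rw [← map_sub, ← Int.cast_sub, hσ]
      have : 1 ≤ |b k i - b k j| := Int.one_le_abs (sub_ne_zero.2 fun hh => hij (hb k hh))
      exact_mod_cast this
    · rw [not_lt] at hcon
      refine hcon.trans (le_of_eq ?_)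
      rw [hσ]
      congr 1
      refine Finset.sum_congr rfl fun k _ => ?_
      rw [← map_sub, ← Int.cast_sub, hσ, hb0, sub_zero, Real.log_one, mul_zero, zero_add, mul_one]
  have hone : ∀ k, (1 : Fin (r k + 1)) ≠ 0 := by
    intro k hk
    have h1 : ((1 : Fin (r k + 1)) : ℕ) = 1 := by
      obtain ⟨s, hs⟩ : ∃ s, r k = s + 1 := ⟨r k - 1, by have := hr k; omega⟩
      rw [hs] at *
      exact Fin.val_one s
    rw [hk] at h1
    simp at h1
  have hpos : ∀ k, (0 : ℝ) < 4 * (r k : ℝ) + 8 := fun k => by positivity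
  have hnn : ∀ (x0 : ∀ k, Fin (r k + 1)) k,
      0 ≤ max 0 (Real.log (|(b k (x0 k) : ℝ)| / 2)) / (4 * (r k : ℝ) + 8) :=
    fun x0 k => div_nonneg (le_max_left _ _) (hpos k).le
  refine ⟨?_, fun k i => ?_⟩
  · have h1 := key (fun k => 1) hone
    have h2 := Finset.sum_nonneg fun k (_ : k ∈ Finset.univ) => hnn (fun k => 1) k
    linarith
  · by_cases hi : i = 0
    · rw [hi, hb0]
      simp only [Int.cast_zero, abs_zero, zero_div, Real.log_zero]
      exact mul_nonneg hC0 (hpos k).le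
    · have h1 := key (Function.update (fun k => 1) k i) (fun l => by
        by_cases hl : l = k
        · subst hl
          rwa [Function.update_self]
        · rw [Function.update_of_ne hl]
          exact hone l)
      have h2 := Finset.single_le_sum (fun l (_ : l ∈ Finset.univ) =>
        hnn (Function.update (fun k => 1) k i) l) (Finset.mem_univ k)
      simp only [Function.update_self] at h2
      have h3 : max 0 (Real.log (|(b k i : ℝ)| / 2)) / (4 * (r k : ℝ) + 8) ≤ bound r := by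
        linarith
      rw [div_le_iff₀ (hpos k)] at h3
      exact (le_max_right _ _).trans h3

/-- Let `n ≥ 1` and `r_0, ..., r_n ≥ 1`.

*Number fields.* Let `K` be a number field, `σ` a complex embedding of `K`, let `λ ≠ 0` and
`a_{k,i}` (`k ≤ n`, `0 ≤ i ≤ r_k`) be algebraic integers of `K`, `δ_k > 0` and
`|σ a_{k,i} - σ a_{k,j}| ≥ δ_k` for `i ≠ j`, and let `D_k` be the distance of two of the
`σ a_{k,i}`. If
`log |σ λ| + ∑_k ((r_k + 1) log δ_k + max (0, log (D_k / (2 δ_k))) / (4 r_k + 8)) ≥ bound r`, then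
`GenusManyClasses` holds for `λ ∏_k ∏_i (x_k - a_{k,i}) = 1`.

*Rational integers.* Consider the hypersurfaces `m ∏_k ∏_i (x_k - b_{k,i}) = 1` over `ℚ`, where
`m ≠ 0` and the `b_{k,i}` are rational integers, `b_{k,i} ≠ b_{k,j}` for `i ≠ j` and `b_{k,0} = 0`
(which can be reached by translations of the coordinates `x_k`). `GenusManyClasses` holds for all but
finitely many of them. -/
theorem result.{u, v} (n : ℕ) (hn : 1 ≤ n) (r : Fin (n + 1) → ℕ) (hr : ∀ k, 1 ≤ r k) :
    (∀ (K : Type u) [Field K] [NumberField K] (σ : K →+* ℂ) (lam : K)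
      (a : ∀ k, Fin (r k + 1) → K), lam ≠ 0 → IsIntegral ℤ lam → (∀ k i, IsIntegral ℤ (a k i)) →
      ∀ δ : Fin (n + 1) → ℝ, (∀ k, 0 < δ k) →
      (∀ k i j, i ≠ j → δ k ≤ ‖σ (a k i) - σ (a k j)‖) →
      ∀ x0 y0 : ∀ k, Fin (r k + 1), (∀ k, x0 k ≠ y0 k) →
      bound r ≤ Real.log ‖σ lam‖ + ∑ k, (((r k : ℝ) + 1) * Real.log (δ k) +
        max 0 (Real.log (‖σ (a k (x0 k)) - σ (a k (y0 k))‖ / (2 * δ k))) / (4 * (r k : ℝ) + 8)) →
      GenusManyClasses.{u, v} σ lam a) ∧
    {p : ℤ × (∀ k, Fin (r k + 1) → ℤ) | p.1 ≠ 0 ∧ (∀ k, Function.Injective (p.2 k)) ∧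
      (∀ k, p.2 k 0 = 0) ∧
      ¬ GenusManyClasses.{0, v} (Rat.castHom ℂ) (p.1 : ℚ) fun k i => (p.2 k i : ℚ)}.Finite := by
  classical
  refine ⟨fun K _ _ σ lam a hl0 hlam ha δ hδ hsep x0 y0 hne h =>
    criterion hn σ lam a hl0 hlam ha δ hδ hsep x0 y0 hne h, ?_⟩
  set M : ℝ := Real.exp (bound r) + ∑ k, 2 * Real.exp (bound r * (4 * (r k : ℝ) + 8)) with hM
  set N : ℤ := ⌈M⌉ with hN
  have hMN : M ≤ (N : ℝ) := Int.le_ceil M
  refine (Set.finite_Icc ((-N, fun _ _ => -N) : ℤ × (∀ k, Fin (r k + 1) → ℤ))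
    (N, fun _ _ => N)).subset ?_
  rintro ⟨m, b⟩ ⟨hm, hb, hb0, hp⟩
  obtain ⟨h1, h2⟩ := rat_bounds.{v} hn hr hm hb hb0 hp
  have hnn : ∀ k, 0 ≤ 2 * Real.exp (bound r * (4 * (r k : ℝ) + 8)) := fun k =>
    mul_nonneg zero_le_two (Real.exp_pos _).le
  have hmN : |m| ≤ N := by
    have h3 : |(m : ℝ)| ≤ Real.exp (bound r) := by
      have h4 : 0 < |(m : ℝ)| := abs_pos.2 (by exact_mod_cast hm)
      rwa [← Real.log_le_iff_le_exp h4]
    have h5 := Finset.sum_nonneg fun k (_ : k ∈ Finset.univ) => hnn k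
    have h6 : |(m : ℝ)| ≤ (N : ℝ) := by linarith
    exact_mod_cast h6
  have hbN : ∀ k i, |b k i| ≤ N := by
    intro k i
    have h5 := Finset.single_le_sum (fun k (_ : k ∈ Finset.univ) => hnn k) (Finset.mem_univ k)
    have h7 := (Real.exp_pos (bound r)).le
    have h6 : |(b k i : ℝ)| ≤ (N : ℝ) := by
      by_cases hbi : b k i = 0
      · rw [hbi]
        simp only [Int.cast_zero, abs_zero]
        linarith [hnn k]
      · have h4 : 0 < |(b k i : ℝ)| / 2 := by
          have : 0 < |(b k i : ℝ)| := abs_pos.2 (by exact_mod_cast hbi)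
          linarith
        have h3 := (Real.log_le_iff_le_exp h4).1 (h2 k i)
        linarith
    exact_mod_cast h6
  rw [Set.mem_Icc, Prod.le_def, Prod.le_def]
  refine ⟨⟨(abs_le.1 hmN).1, ?_⟩, (abs_le.1 hmN).2, ?_⟩
  · intro k i
    exact (abs_le.1 (hbN k i)).1
  · intro k i
    exact (abs_le.1 (hbN k i)).2

end Pool.Agent.Results.MP_a09a03_nt.AllButFinitelyMany
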