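import Pool.Agent.Run7.h153.NS.Data
set_option autoImplicit false

/-!
Beilinson's regulator conjecture (`K_2` of curves, `X` of dimension 1, weight 2, `i = 1`): classes
over the ground field `K` on the curves `C : λ P(x) Q(y) = 1` with *arbitrary* monic polynomials `P`
and `Q` with integral coefficients over a number field `K`, which may be irreducible over `K`.

In the known constructions `P` and `Q` are products of linear factors over `K`; then the points at
infinity of `C` are rational over `K`, and the classes are `{x - a, y - b}`-combinations. Here the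
points at infinity need not be rational over `K` (or over any extension of small degree), and
nevertheless there are explicit unramified classes over `K` with nonvanishing regulators.

For monic polynomials `F`, `h`, `k`, `F` of degree `d`, let

  `β(F, h, k) = {F(h(x)) / F(k(y)), h(x) - k(y)} - (1 / d) {F(h(x)), F(k(y))}`.

If `F(h)` divides `P` and `F(k)` divides `Q`, it is unramified at all discrete valuations (of any
characteristic) of the function field of `C` over `K`; for example `P = Q = F`, `h = k = t`: on each
curve `λ F(x) F(y) = 1` there is the class `{F(x) / F(y), x - y} - (1 / d) {F(x), F(y)}`. The proof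
of the nonvanishing: by the relation `{u, w} = {u / w, u - w}` of Steinberg type, over the complex
numbers `β(F, h, k)` is the combination of the symbols `{x - a, y - b}`, `a` and `b` the roots of `P`
and `Q`, whose matrix of coefficients is `1 - 1/d` if `h(a) = k(b)` is a root of `F`, `-1/d` if
`h(a) ≠ k(b)` are roots of `F`, and `0` otherwise. The rows and columns of this matrix have sum `0`,
and the theorem of the starting file `CriticalProduct` about curves with rational roots, applied to
the complex curve, shows that the regulators of such combinations on suitable loops determine the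
matrix.
-/

namespace Pool.Agent.Results.MP_a09a03_nt.ClassesOverTheGroundField

open Polynomial

open Pool.Agent.TH826.MK (KQ Unramified Torus)

open Pool.Agent.Run7.h153.NS

/-- Let `K` be a number field, `σ` a complex embedding of `K`, `λ ≠ 0` an algebraic integer of `K`,
and let `P = P_0 ⋯ P_r` and `Q = Q_0 ⋯ Q_{r'}` be squarefree products of monic polynomials of positive
degree whose coefficients are algebraic integers of `K`; the `P_i` and `Q_j` may be irreducible over
`K`. Suppose that `|σ(λ) P(ξ) Q(η)| > 1` for all complex zeros `ξ` of the derivative of `P` and `η` of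
the derivative of `Q` (at `σ`; this holds for all `λ` with large `|σ(λ)|`). For `s = 1, ..., N` let
`F_s`, `h_s`, `k_s` be monic polynomials with integral coefficients, `deg F_s ≥ 2`, such that
`F_s(h_s) = P_i` and `F_s(k_s) = Q_j` with `(i, j) = S_s`, where `S_s ≠ S_{s'}` for `s ≠ s'`.
These are the hypotheses `D.Good σ` on the data `D`.

Then the coordinate ring `A` of the curve `C : λ P(x) Q(y) = 1` over `K` is a domain, `C` is smooth at
its complex points over `σ`, and `h_s(x) ≠ k_s(y)` in `A`.

Let `M` be any field with a homomorphism `A → M` (for example the function field of `C` over `K`). If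
`h_s(x) ≠ k_s(y)` in `M`, the class
`β_s = {F_s(h_s(x)) / F_s(k_s(y)), h_s(x) - k_s(y)} - (1 / deg F_s) {F_s(h_s(x)), F_s(k_s(y))}`
in `K_2(M) ⊗ ℚ` is unramified at all discrete valuations of `M`, and so are the `r r'`
classes `γ_{p,q} = {P_p(x) ^ e_0 / P_0(x) ^ e_p, Q_q(y) ^ d_0 / Q_0(y) ^ d_q}`,
`1 ≤ p ≤ r`, `1 ≤ q ≤ r'`, `e_i = deg P_i`, `d_j = deg Q_j` (`D.cls`).

There are elements `b` of `K_2 ⊗ ℚ` of the coordinate ring `A_σ` of the complex curve
`σ(λ) P^σ(x) Q^σ(y) = 1`, indexed like the `N + r r'` classes, which have the same images as these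
classes in `K_2(M) ⊗ ℚ` for all fields `M` with a homomorphism `A_σ → M` (with `h_s(x) ≠ k_s(y)` in
`M`, for the `β_s`; for example for the function field of the complex curve), and there are finitely
many loops `Γ_t` in the complex points of the curve such that the `N + r r'` vectors of the regulators
of the `b` on the loops are linearly independent over `ℝ`.

For example, for every squarefree monic polynomial `F` of degree at least `2` with integral
coefficients (`r = r' = 0`, `N = 1`, `P = Q = F`, `h = k = t`) there is a class over `K` with
nonvanishing regulators on the curve `λ F(x) F(y) = 1`, for all `λ` with large `|σ(λ)|`. For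
`P = t^m - 1`, `Q = t^n - 1` and `λ ∈ ℤ`, `|λ| ≥ 2`, one can take for the `P_i` and the `Q_j` the
cyclotomic polynomials. -/
theorem result.{u, v, w} (K : Type u) [Field K] [NumberField K] (σ : K →+* ℂ) (D : Data K)
    (hD : D.Good σ) :
    IsDomain D.A ∧
    (∀ x : Fin 2 → ℂ, MvPolynomial.eval₂ σ x D.eq = 0 →
      ∃ l, MvPolynomial.eval₂ σ x (MvPolynomial.pderiv l D.eq) ≠ 0) ∧
    (∀ s, D.diff s ≠ 0) ∧
    (∀ (M : Type v) [Field M] (f : D.A →+* M) s, D.Defined f s → D.cls f s ∈ Unramified M 2) ∧
    ∃ b : Fin D.N ⊕ (Fin D.r × Fin D.r') → KQ (D.AC σ) 2,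
      (∀ (M : Type w) [Field M] (g : D.AC σ →+* M) s, D.Defined (g.comp (D.base σ)) s →
        KQ.map 2 g (b s) = D.cls (g.comp (D.base σ)) s) ∧
      ∃ (n : ℕ) (Γ : Fin n → Torus (D.AC σ) 1),
        (∀ t θ (c : ℂ), (Γ t).e θ (cc _ _ _ c) = c) ∧
        LinearIndependent ℝ (fun s (t : Fin n) => (Γ t).reg (b s)) := by
  obtain ⟨h1, h2, h3, h4, b, b', h5, n, Γ, h6, h7⟩ := main_core.{u, v, w} K σ D.lam hD.ne_zero
    hD.integral D.r D.r' D.N D.P D.Q hD.monic hD.monic' hD.squarefree hD.squarefree' hD.critical
    D.S hD.injective D.F D.h D.k hD.triples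
  refine ⟨h1, h2, h3, ?_, Sum.elim b b', ?_, n, Γ, h6, h7⟩
  · rintro M _ f (s | ⟨p, q⟩) hs
    · exact (h4 M f).1 s hs
    · exact (h4 M f).2 (p, q)
  · rintro M _ g (s | ⟨p, q⟩) hs
    · exact (h5 M g).1 s hs
    · exact (h5 M g).2 (p, q)

end Pool.Agent.Results.MP_a09a03_nt.ClassesOverTheGroundField
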