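import Pool.Agent.Run7.h406.Fc.Unif
set_option autoImplicit false

/-!
Beilinson's conjecture on regulators in weight `dim X + 1`, for `i = dim X`: the fibrations
`W(z) = F(x)`, `F = λ (x - a_0) ... (x - a_m)`, over the line, where `W` is an arbitrary Laurent
polynomial in `z_0, ..., z_s` which divides a product of Laurent polynomials of simplex type and has
the origin in the interior of its Newton polytope. There are `m` unramified classes in Milnor
K-theory with linearly independent regulators, as soon as the critical values of `F` are larger than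
an explicit constant which depends on `W` only (not on the zeros `a_e` and not on the degree). For
integral zeros this holds, for given `W`, for all `F` of all degrees with finitely many exceptions
(up to translations of `x`).
-/

namespace Pool.Agent.Results.MP_a09a03_nt.UniformLaurentFibrations

open Polynomial

open Pool.Agent.N65.TL

open Pool.Agent.Run7.h406.Fc

/-- The properties of the fibration `W(z) = λ (x - a_0) ... (x - a_m)`. Let `A` be the coordinate
ring of the open part `F ≠ 0` of the hypersurface `W(z) = F(x)`, `z_i ≠ 0`, of dimension `s + 1`.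
For every index `t` the symbol `{z_0, ..., z_s, (x - a_t)/(x - a_m)}` has unramified images in the
Milnor K-theory of all fields `L` with a homomorphism `A → L`; and there are tori `Γ_t`,
`0 ≤ t < m`, of dimension `s + 1` in the complex points (over `σ`) of the open part, such that the
determinant of the regulators of the symbols of the `t' < m` on the tori `Γ_t` does not vanish.
(`lineFam W a` is the family of the starting file `LaurentFibrations` for `d = 0`, `g = 1`, `w = 0`
and the forms `x - a_e`; the index set `Ix` of `Indep` consists of the `T = (T_0)` with `T_0 ≠ m`,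
see `nbc_line`, and `u = (x - a_(T_0))/(x - a_m)`, see `u_line`.) -/
def Classes.{u, v} {K : Type u} [Field K] {s m : ℕ} (W : LP K (s + 1)) (σ : K →+* ℂ) (lam : K)
    (a : Fin (m + 1) → K) : Prop :=
  Fam.Unram.{u, v} (lineFam W a) lam ∧ (lineFam W a).Indep lam σ

/-- Let `s ≥ 0`, let `σ` be a complex embedding of the number field `K`, and let
`W = ∑_k w_k z^k` be a Laurent polynomial in `z_0, ..., z_s` over `K` such that the origin is an
interior point of the Newton polytope (`Interior`) and which divides a product of polynomials of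
simplex type (`Tame`). For radii `ρ_0, ..., ρ_s > 0` let `|W|_ρ = ∑_k |σ(w_k)| ρ^k` (`nn ρ σ W`).

1. Let `v` be an exposed vertex of the Newton polytope and let `ρ` be radii such that
`|W|_ρ < 2 |σ(w_v)| ρ^v` (`Dom`), and let `ρ'` be arbitrary radii. Then `Classes` holds for all
`m ≥ 0` and all algebraic integers `λ ≠ 0` and `a_0, ..., a_m` of `K`, the `a_e` different, such
that the critical values `y` of `F = σ(λ) ∏_e (x - σ(a_e))` satisfy `|y| > |W|_ρ` and
`|y|² > |W|_ρ'² + |σ(w_v)|²`.

2. In the situation of 1. let `c ≠ 0` be an integer and `b_0, ..., b_m` different integers, and let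
`P = |c| ∏_{0 ≤ k ≤ m} (⌊k/2⌋ + 1/2)`. If `P > |W|_ρ` and `P² > |W|_ρ'² + |σ(w_v)|²`, then
`Classes` holds for `λ = c`, `a_e = b_e`.

3. There is a number `N` such that `Classes` holds for all `m ≥ 0`, all integers `c ≠ 0` and all
different integers `b_0, ..., b_m` such that `|c| ≥ N` or `|b_i - b_j| ≥ N` for some `i, j` (this
excludes finitely many triples `m, c, b` with `b_0 = 0`). -/
theorem result.{u, v} (s : ℕ) (K : Type u) [Field K] [NumberField K] (σ : K →+* ℂ)
    (W : LP K (s + 1)) (hW : Interior W) (hT : Tame W) :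
    (∀ (v : Fin (s + 1) → ℤ) (ρ ρ' : Fin (s + 1) → ℝ), (∀ i, 0 < ρ i) → (∀ i, 0 < ρ' i) →
      Dom ρ σ W v →
      (∀ (m : ℕ) (lam : K) (a : Fin (m + 1) → K), IsIntegral ℤ lam → (∀ e, IsIntegral ℤ (a e)) →
        lam ≠ 0 → Function.Injective a →
        (∀ x : ℂ, (derivative (∏ i, (X - C (σ (a i))))).eval x = 0 →
          nn ρ σ W < ‖σ lam‖ * ‖∏ i, (x - σ (a i))‖ ∧
          nn ρ' σ W ^ 2 + ‖σ (W.coeff v)‖ ^ 2 < (‖σ lam‖ * ‖∏ i, (x - σ (a i))‖) ^ 2) →
        Classes.{u, v} W σ lam a) ∧
      ∀ (m : ℕ) (c : ℤ) (b : Fin (m + 1) → ℤ), c ≠ 0 → Function.Injective b →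
        nn ρ σ W < |(c : ℝ)| * ∏ k ∈ Finset.range (m + 1), (((k / 2 : ℕ) : ℝ) + 1 / 2) →
        nn ρ' σ W ^ 2 + ‖σ (W.coeff v)‖ ^ 2 <
          (|(c : ℝ)| * ∏ k ∈ Finset.range (m + 1), (((k / 2 : ℕ) : ℝ) + 1 / 2)) ^ 2 →
        Classes.{u, v} W σ (c : K) fun e => (b e : K)) ∧
    ∃ N : ℕ, ∀ (m : ℕ) (c : ℤ) (b : Fin (m + 1) → ℤ), c ≠ 0 → Function.Injective b →
      ((N : ℤ) ≤ |c| ∨ ∃ i j, (N : ℤ) ≤ |b i - b j|) →
      Classes.{u, v} W σ (c : K) fun e => (b e : K) := by
  have hint : ∀ k : ℤ, IsIntegral ℤ (k : K) := fun k => isIntegral_algebraMap (x := k)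
  refine ⟨fun v ρ ρ' hρ hρ' hD => ⟨fun m lam a hlam ha hl hinj hcrit => ?_,
    fun m c b hc hb h1 h2 => ?_⟩, ?_⟩
  · exact ⟨unram_line hW hT hinj ha hlam, indep hρ hD hl hinj (fun k => norm_coeff_le hρ' W k)
      hcrit⟩
  · have hinj : Function.Injective fun e => (b e : K) := fun i j hij =>
      hb (Int.cast_injective hij)
    refine ⟨unram_line hW hT hinj (fun e => hint (b e)) (hint c),
      indep hρ hD (Int.cast_ne_zero.2 hc) hinj (fun k => norm_coeff_le hρ' W k) fun x hx => ?_⟩
    simp only [map_intCast] at hx ⊢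
    have h3 := Pool.Agent.N686.DI.crit_int (Nat.succ_pos m) b hb hx
    have h4 : |(c : ℝ)| * ∏ k ∈ Finset.range (m + 1), (((k / 2 : ℕ) : ℝ) + 1 / 2) ≤
        ‖(c : ℂ)‖ * ‖∏ i, (x - (b i : ℂ))‖ := by
      rw [Complex.norm_intCast]
      exact mul_le_mul_of_nonneg_left h3 (abs_nonneg _)
    have h5 : 0 ≤ |(c : ℝ)| * ∏ k ∈ Finset.range (m + 1), (((k / 2 : ℕ) : ℝ) + 1 / 2) :=
      mul_nonneg (abs_nonneg _) (Finset.prod_nonneg fun k _ => by positivity)
    exact ⟨h1.trans_le h4, h2.trans_le (pow_le_pow_left₀ h5 h4 2)⟩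
  · obtain ⟨N, hN⟩ := exists_indep_int hW σ
    refine ⟨N, fun m c b hc hb h => ⟨unram_line hW hT (fun i j hij =>
      hb (Int.cast_injective hij)) (fun e => hint (b e)) (hint c), hN m c b hc hb h⟩⟩

end Pool.Agent.Results.MP_a09a03_nt.UniformLaurentFibrations
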